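import Mathlib

set_option autoImplicit false

namespace Pool.Agent.Results.MP_12428a_co.FourFlow

open Finset

open Classical in
/-- `φ` is a nowhere-zero flow on the oriented multigraph with tail map `t` and head map `h`. -/
def IsFlow {V E A : Type} [Fintype E] [AddCommGroup A] (t h : E → V) (φ : E → A) : Prop :=
  (∀ e, φ e ≠ 0) ∧ ∀ v, ∑ e with t e = v ∧ h e ≠ v, φ e = ∑ e with h e = v ∧ t e ≠ v, φ e

open Classical in
/-- the coordinate at the value `x` of the balanced vector of the vertex `v` -/
noncomputable def eps {V E A : Type} [Fintype E] (t h : E → V) (φ : E → A) (v : V) (x : A) : ℤ :=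
  (#{e | t e = v ∧ h e ≠ v ∧ φ e = x} : ℕ) - (#{e | h e = v ∧ t e ≠ v ∧ φ e = x} : ℕ)

section
variable {V E : Type} [DecidableEq V]

/-- incidence number -/
def inc (t h : E → V) (e : E) (v : V) : ℤ := (if t e = v then 1 else 0) - if h e = v then 1 else 0

theorem euler [DecidableEq E] (C : Finset E) : ∀ t h : E → V,
    (∀ v, Even (∑ e ∈ C, inc t h e v)) →
    ∃ f : E → ℤ, (∀ e, f e = 1 ∨ f e = -1) ∧ ∀ v, ∑ e ∈ C, f e * inc t h e v = 0 := by
  induction C using Finset.induction_on with
  | empty => exact fun _ _ _ => ⟨fun _ => 1, fun _ => Or.inl rfl, by simp⟩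
  | insert a C ha ih =>
    intro t h hev
    simp only [sum_insert ha] at hev ⊢
    have fin : ∀ (g : E → ℤ) (s : ℤ), (∀ e, g e = 1 ∨ g e = -1) → (s = 1 ∨ s = -1) →
        (∀ v, s * inc t h a v + ∑ e ∈ C, g e * inc t h e v = 0) →
        ∃ f : E → ℤ, (∀ e, f e = 1 ∨ f e = -1) ∧
          ∀ v, f a * inc t h a v + ∑ e ∈ C, f e * inc t h e v = 0 := fun g s hg hs H => by
      refine ⟨Function.update g a s, fun e => ?_, fun v => ?_⟩
      · by_cases he : e = a
        · subst he
          simpa using hs
        · simpa [he] using hg e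
      · rw [Function.update_self, ← H v]
        congr 1
        exact sum_congr rfl fun e he => by
          rw [Function.update_of_ne (ne_of_mem_of_not_mem he ha)]
    by_cases hl : t a = h a
    · have h0 : ∀ v, inc t h a v = 0 := fun v => by simp [inc, hl]
      obtain ⟨g, hg, H⟩ := ih t h (by simpa [h0] using hev)
      exact fin g 1 hg (Or.inl rfl) (by simpa [h0] using H)
    obtain ⟨b, hb, hb'⟩ : ∃ b ∈ C, inc t h b (h a) ≠ 0 := by
      by_contra hn
      push Not at hn
      have := hev (h a)
      rw [sum_eq_zero hn] at this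
      simp [inc, hl] at this
    have split : ∀ (t' h' : E → V) (g : E → ℤ) (v : V), (∀ e ≠ b, t' e = t e ∧ h' e = h e) →
        ∑ e ∈ C, g e * inc t' h' e v =
          ∑ e ∈ C, g e * inc t h e v + g b * (inc t' h' b v - inc t h b v) := fun t' h' g v H => by
      rw [← add_sum_erase C _ hb, ← add_sum_erase C _ hb, sum_congr rfl fun e he => by
        rw [show inc t' h' e v = inc t h e v by simp only [inc, H e (ne_of_mem_erase he)]]]
      ring
    by_cases h1 : t b = h a
    · have k : ∀ v, inc (Function.update t b (t a)) h b v - inc t h b v = inc t h a v := fun v => by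
        simp only [inc, Function.update_self, h1]
        ring
      have H : ∀ e ≠ b, Function.update t b (t a) e = t e ∧ h e = h e := fun e he => by simp [he]
      obtain ⟨g, hg, Hg⟩ := ih (Function.update t b (t a)) h fun v => by
        have := split _ _ (fun _ => 1) v H
        simp only [one_mul, k] at this
        rw [this, add_comm]
        exact hev v
      exact fin g (g b) hg (hg b) fun v => by rw [← Hg v, split _ _ g v H, k, add_comm]
    · have h2 : h b = h a := by
        by_contra h2
        simp [inc, h1, h2] at hb'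
      have k : ∀ v, inc t (Function.update h b (t a)) b v - inc t h b v = -inc t h a v :=
        fun v => by
          simp only [inc, Function.update_self, h2]
          ring
      have H : ∀ e ≠ b, t e = t e ∧ Function.update h b (t a) e = h e := fun e he => by simp [he]
      obtain ⟨g, hg, Hg⟩ := ih t (Function.update h b (t a)) fun v => by
        have := split _ _ (fun _ => 1) v H
        simp only [one_mul, k] at this
        rw [this]
        have := hev v
        rw [Int.even_iff] at this ⊢
        omega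
      exact fin g (-g b) hg (by have := hg b; omega) fun v => by
        rw [← Hg v, split _ _ g v H, k]
        ring

theorem join [Fintype V] [Fintype E] (t h : E → V) (I : Finset E) (y : V → ZMod 2)
    (hy : ∀ g : V → ZMod 2, (∀ e ∈ I, g (t e) = g (h e)) → ∑ v, g v * y v = 0) :
    ∃ D ⊆ I, ∀ v, ((∑ e ∈ D, inc t h e v : ℤ) : ZMod 2) = y v := by
  classical
  let W := Submodule.span (ZMod 2) (Set.range fun e : I => fun v => ((inc t h e v : ℤ) : ZMod 2))
  have : y ∈ W := by
    by_contra hn
    obtain ⟨φ, h1, h2⟩ := W.exists_dual_map_eq_bot_of_notMem hn inferInstance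
    have h3 : ∀ z : V → ZMod 2, φ z = ∑ v, φ (Pi.single v 1) * z v := fun z => by
      rw [LinearMap.pi_apply_eq_sum_univ φ z]
      refine sum_congr rfl fun v _ => ?_
      rw [smul_eq_mul, mul_comm]
      exact congrArg (fun x => φ x * z v) (funext fun w => by simp [Pi.single_apply, eq_comm])
    refine h1 ((h3 y).trans (hy _ fun e he => ?_))
    have h4 : φ (fun v => ((inc t h e v : ℤ) : ZMod 2)) = 0 := by
      rw [← Submodule.mem_bot (ZMod 2), ← h2]
      exact Submodule.mem_map_of_mem (Submodule.subset_span ⟨⟨e, he⟩, rfl⟩)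
    rw [h3] at h4
    simpa [inc, mul_sub, sub_eq_zero] using h4
  obtain ⟨c, rfl⟩ := (Submodule.mem_span_range_iff_exists_fun _).mp this
  refine ⟨(univ.filter fun e => c e = 1).map (Function.Embedding.subtype _), fun e he => ?_,
    fun v => ?_⟩
  · obtain ⟨e, -, rfl⟩ := mem_map.mp he
    exact e.2
  · rw [sum_map, Finset.sum_apply, sum_filter, Int.cast_sum]
    refine sum_congr rfl fun e _ => ?_
    have : ∀ x : ZMod 2, x = 0 ∨ x = 1 := by decide
    rcases this (c e) with k | k <;> simp [k]

omit [DecidableEq V] in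
theorem indep {ι : Type} [Fintype ι] (c : ι → V → ℤ)
    (hc : LinearIndependent (ZMod 2) fun i v => (c i v : ZMod 2)) :
    LinearIndependent ℚ fun i v => (c i v : ℚ) := by
  rw [← LinearIndependent.iff_fractionRing ℤ ℚ, Fintype.linearIndependent_iff]
  rw [Fintype.linearIndependent_iff] at hc
  have key : ∀ n : ℕ, ∀ g : ι → ℤ, (∀ v, ∑ i, g i * c i v = 0) → ∀ i, (2 : ℤ) ^ n ∣ g i := by
    intro n
    induction n with
    | zero => simp
    | succ n ih =>
      intro g hg
      have h2 : ∀ i, ∃ k, g i = 2 * k := fun i => (ZMod.intCast_zmod_eq_zero_iff_dvd _ 2).mp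
        (hc (fun i => (g i : ZMod 2)) (funext fun v => by
          simpa using congrArg (Int.cast : ℤ → ZMod 2) (hg v)) i)
      choose k hk using h2
      intro i
      rw [hk, pow_succ']
      refine mul_dvd_mul_left _ (ih k (fun v => ?_) i)
      have := hg v
      simp only [hk, mul_assoc, ← mul_sum] at this
      omega
  intro g hg i
  have h1 := key (g i).natAbs g (fun v => by
    have := congrFun hg v
    simp only [Finset.sum_apply, Pi.zero_apply, zsmul_eq_mul, Pi.mul_apply,
      Pi.intCast_apply] at this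
    exact_mod_cast this) i
  refine Int.eq_zero_of_dvd_of_natAbs_lt_natAbs h1 ?_
  simpa [Int.natAbs_pow] using Nat.lt_two_pow_self

omit [DecidableEq V] in
theorem two {ι : Type} [Fintype V] [Fintype ι] [DecidableEq ι] (c : V → ι → ℤ)
    (hc : Module.finrank ℚ (Submodule.span ℚ (Set.range fun v i => (c v i : ℚ))) ≤ 2) :
    ∃ J : Finset ι, #J ≤ 2 ∧ ∀ v, Even (∑ i with i ∉ J, c v i) := by
  classical
  obtain ⟨κ, a, ha, h1, h2⟩ := exists_linearIndependent' (ZMod 2) fun i v => (c v i : ZMod 2)
  have := Fintype.ofInjective a ha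
  have h3 := indep (fun k v => c v (a k)) h2
  have h4 : Fintype.card κ ≤ 2 := by
    let M : Matrix V ι ℚ := fun v i => c v i
    rw [← finrank_span_eq_card h3]
    refine (Submodule.finrank_mono (t := Submodule.span ℚ (Set.range M.col))
      (Submodule.span_mono ?_)).trans ?_
    · rintro _ ⟨k, rfl⟩
      exact ⟨a k, rfl⟩
    · rw [← Matrix.rank_eq_finrank_span_cols, Matrix.rank_eq_finrank_span_row]
      exact hc
  have h5 : (∑ i, fun v => (c v i : ZMod 2)) ∈ Submodule.span (ZMod 2)
      (Set.range fun i v => (c v i : ZMod 2)) := Submodule.sum_mem _ fun i _ =>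
    Submodule.subset_span (Set.mem_range_self i)
  rw [← h1] at h5
  obtain ⟨b, hb⟩ := (Submodule.mem_span_range_iff_exists_fun _).mp h5
  refine ⟨(univ.filter fun k => b k = 1).map ⟨a, ha⟩, ?_, fun v => ?_⟩
  · rw [card_map]
    exact (card_le_univ _).trans h4
  · rw [even_iff_two_dvd, ← Nat.cast_ofNat, ← ZMod.intCast_zmod_eq_zero_iff_dvd, Int.cast_sum]
    have h6 := congrFun hb v
    rw [Finset.sum_apply, Finset.sum_apply, ← sum_filter_add_sum_filter_not (univ : Finset ι)
      (· ∈ (univ.filter fun k => b k = 1).map ⟨a, ha⟩), filter_mem_eq_inter, univ_inter, sum_map,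
      sum_filter] at h6
    refine left_eq_add.mp (Eq.trans (sum_congr rfl fun k _ => ?_) h6)
    have : ∀ x : ZMod 2, x = 0 ∨ x = 1 := by decide
    rcases this (b k) with e | e <;> simp [e]

theorem pair {A : Type} [NormedAddCommGroup A] [NormedSpace ℝ A] (J : Finset A) (hJ : #J ≤ 2)
    (h1 : ∀ x ∈ J, ‖x‖ = 1) (n : A → ℤ) (h : ∑ x ∈ J, n x • x = 0) : Even (∑ x ∈ J, n x) := by
  classical
  obtain h0 | h0 | h0 : #J = 0 ∨ #J = 1 ∨ #J = 2 := by omega
  · simp [card_eq_zero.mp h0]
  · obtain ⟨x, rfl⟩ := card_eq_one.mp h0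
    have := congrArg norm h
    simp only [sum_singleton, norm_zsmul ℝ, h1 x (by simp), mul_one, norm_zero, norm_eq_zero,
      Int.cast_eq_zero] at this
    simp [this]
  · obtain ⟨x, y, hxy, rfl⟩ := card_eq_two.mp h0
    rw [sum_pair hxy] at h ⊢
    have := congrArg norm (eq_neg_of_add_eq_zero_left h)
    simp only [norm_neg, norm_zsmul ℝ, h1 x (by simp), h1 y (by simp), mul_one, Real.norm_eq_abs,
      abs_eq_abs] at this
    norm_cast at this
    rw [Int.even_iff]
    omega

end

open Classical in
theorem flow_iff {V E A : Type} [Fintype E] [AddCommGroup A] (t h : E → V) (φ : E → A) (v : V) :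
    ∑ e with t e = v ∧ h e ≠ v, φ e = ∑ e with h e = v ∧ t e ≠ v, φ e ↔
      ∑ e, inc t h e v • φ e = 0 := by
  rw [← sub_eq_zero, sum_filter, sum_filter, ← sum_sub_distrib, sum_congr rfl fun e _ => ?_]
  by_cases h1 : t e = v <;> by_cases h2 : h e = v <;> simp [inc, h1, h2]

open Classical in
theorem eps_eq {V E A : Type} [Fintype E] (t h : E → V) (φ : E → A) (v : V) (x : A) :
    eps t h φ v x = ∑ e with φ e = x, inc t h e v := by
  rw [eps, card_filter, card_filter, sum_filter, Nat.cast_sum, Nat.cast_sum, ← sum_sub_distrib]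
  refine sum_congr rfl fun e _ => ?_
  by_cases h1 : t e = v <;> by_cases h2 : h e = v <;> by_cases h3 : φ e = x <;>
    simp [inc, h1, h2, h3]

theorem result {V E : Type} [Fintype V] [Fintype E] (t h : E → V)
    (φ : E → EuclideanSpace ℝ (Fin 3)) (hφ : IsFlow t h φ) (h1 : ∀ e, ‖φ e‖ = 1)
    (hr : Module.finrank ℚ (Submodule.span ℚ
      (Set.range fun (v : V) (x : Set.range φ) => (eps t h φ v x : ℚ))) ≤ 2) :
    ∃ ψ : E → ℤ, IsFlow t h ψ ∧ ∀ e, |ψ e| < 4 := by
  classical
  obtain ⟨J₀, hJ, hev⟩ := two (fun v (x : Set.range φ) => eps t h φ v x) hr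
  let J := J₀.map (Function.Embedding.subtype _)
  let I : Finset E := {e | φ e ∉ J}
  obtain ⟨f, hf, Hf⟩ := euler I t h fun v => by
    have := hev v
    simp only [eps_eq] at this
    rw [← sum_fiberwise_of_maps_to (t := {x | x ∉ J₀}) (g := Set.rangeFactorization φ)
      fun e he => by simpa [I, J, Set.rangeFactorization] using he]
    convert this using 2 with x hx
    refine sum_congr (Finset.ext fun e => ?_) fun _ _ => rfl
    simp only [mem_filter, mem_univ, true_and, Subtype.ext_iff, I, J] at hx ⊢
    refine ⟨fun k => k.2, fun k => ⟨?_, k⟩⟩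
    rw [show φ e = x from k]
    simp [hx]
  obtain ⟨D, hD, HD⟩ := join t h I (fun v => ((∑ e ∈ Iᶜ, inc t h e v : ℤ) : ZMod 2)) fun g hg => by
    let η : E → ℤ := fun e => ∑ v with g v = 1, inc t h e v
    have e0 : ∀ e ∈ I, η e = 0 := fun e he => by simp [η, inc, hg e he]
    have e1 : ∑ e, η e • φ e = 0 := by
      simp only [η, sum_smul]
      rw [sum_comm]
      exact sum_eq_zero fun v _ => (flow_iff t h φ v).mp (hφ.2 v)
    have e2 : ∀ e ∈ Iᶜ, φ e ∈ J := fun e he => by simpa [I] using he
    rw [← sum_add_sum_compl I, sum_eq_zero fun e he => by rw [e0 e he, zero_smul], zero_add,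
      ← sum_fiberwise_of_maps_to e2] at e1
    have e3 := pair J (by simpa [J] using hJ) (fun x hx => by
      obtain ⟨⟨_, e, rfl⟩, -, rfl⟩ := mem_map.mp hx
      exact h1 e) (fun x => ∑ e ∈ Iᶜ with φ e = x, η e) (by
        rw [← e1]
        refine sum_congr rfl fun x _ => ?_
        rw [sum_smul]
        exact sum_congr rfl fun e he => by rw [(mem_filter.mp he).2])
    rw [sum_fiberwise_of_maps_to e2, even_iff_two_dvd, ← Nat.cast_ofNat,
      ← ZMod.intCast_zmod_eq_zero_iff_dvd, sum_comm, Int.cast_sum, sum_filter] at e3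
    refine Eq.trans (sum_congr rfl fun v _ => ?_) e3
    have : ∀ x : ZMod 2, x = 0 ∨ x = 1 := by decide
    rcases this (g v) with e | e <;> simp [e]
  obtain ⟨f', hf', Hf'⟩ := euler (D ∪ Iᶜ) t h fun v => by
    rw [sum_union (disjoint_compl_right.mono_left hD), even_iff_two_dvd, ← Nat.cast_ofNat,
      ← ZMod.intCast_zmod_eq_zero_iff_dvd, Int.cast_add, HD, CharTwo.add_self_eq_zero]
  have key : ∀ e, ((if e ∈ I then f e else 0) + 2 * if e ∈ D ∪ Iᶜ then f' e else 0) ≠ 0 ∧
      |(if e ∈ I then f e else 0) + 2 * if e ∈ D ∪ Iᶜ then f' e else 0| < 4 := fun e => by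
    have := hf e
    have := hf' e
    rw [abs_lt]
    by_cases k : e ∈ I <;> by_cases k' : e ∈ D <;>
      simp only [k, k', mem_union, mem_compl, or_self, or_true, true_or, not_true, not_false_iff,
        if_true, if_false] <;> omega
  refine ⟨_, ⟨fun e => (key e).1, fun v => (flow_iff t h _ v).mpr ?_⟩, fun e => (key e).2⟩
  have e1 := Hf v
  have e2 := Hf' v
  rw [← univ_inter I, ← sum_ite_mem] at e1
  rw [← univ_inter (D ∪ Iᶜ), ← sum_ite_mem] at e2
  have e3 := congrArg₂ (fun x y => x + 2 * y) e1 e2
  simp only [mul_sum, ← sum_add_distrib, mul_zero, add_zero] at e3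
  refine Eq.trans (sum_congr rfl fun e _ => ?_) e3
  rw [smul_eq_mul]
  split_ifs <;> ring

end Pool.Agent.Results.MP_12428a_co.FourFlow
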